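import Mathlib
import Pool.Graph.R_seed8.Helper343.M7

/-!
# A locally univalent function of the MacLane class with an arc tract over a half circle

One holomorphic function on the unit disc with nowhere vanishing derivative which has the
asymptotic value `∞` at every point of the open lower half circle, a finite asymptotic value at
every point of the open upper half circle, and an arc tract whose end is the whole closed lower
half circle.
-/

set_option autoImplicit false
open Filter Topology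

namespace Pool.Agent.Results.MP_6f1701_an.HalfCircle

/-- `σ` is a curve `[0,1) → 𝔻` ending at `ζ` -/
def EndsAt (σ : ℝ → ℂ) (ζ : ℂ) : Prop :=
  ContinuousOn σ (Set.Ico 0 1) ∧ (∀ t ∈ Set.Ico (0 : ℝ) 1, σ t ∈ Metric.ball (0 : ℂ) 1) ∧
    Tendsto σ (𝓝[<] (1 : ℝ)) (𝓝 ζ)

/-- `f` has a finite asymptotic value at `ζ` -/
def HasFiniteAsymptoticValue (f : ℂ → ℂ) (ζ : ℂ) : Prop :=
  ∃ σ, EndsAt σ ζ ∧ ∃ w, Tendsto (fun t => f (σ t)) (𝓝[<] (1 : ℝ)) (𝓝 w)

/-- `f` has the asymptotic value `∞` at `ζ` -/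
def HasInfiniteAsymptoticValue (f : ℂ → ℂ) (ζ : ℂ) : Prop :=
  ∃ σ, EndsAt σ ζ ∧ Tendsto (fun t => ‖f (σ t)‖) (𝓝[<] (1 : ℝ)) atTop

/-- the closed arc `{e^{iθ} : α ≤ θ ≤ β}` -/
def arc (α β : ℝ) : Set ℂ := (fun θ : ℝ => Complex.exp ((θ : ℂ) * Complex.I)) '' Set.Icc α β

/-- `f` has an arc tract with end `arc α β`: Jordan arcs `g n` in the disc that converge to the arc
in the Hausdorff distance and on which `min |f| → ∞` -/
def HasArcTract (f : ℂ → ℂ) (α β : ℝ) : Prop :=
  ∃ g : ℕ → ℝ → ℂ,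
    (∀ n, ContinuousOn (g n) (Set.Icc 0 1) ∧ Set.InjOn (g n) (Set.Icc 0 1) ∧
      g n '' Set.Icc 0 1 ⊆ Metric.ball (0 : ℂ) 1) ∧
    Tendsto (fun n => Metric.hausdorffDist (g n '' Set.Icc 0 1) (arc α β)) atTop (𝓝 0) ∧
    ∀ M : ℝ, ∀ᶠ n in atTop, ∀ t ∈ Set.Icc (0 : ℝ) 1, M ≤ ‖f (g n t)‖

open Pool.Agent.H343.M Complex Set

/-- the level estimate of the construction, on the whole segment -/
theorem level (n : ℕ) {x : ℝ} (hx0 : 0 ≤ x) (hx : x ≤ n) :
    (n:ℝ) - 3 ≤ ‖FF ((x:ℂ) + yn n * I)‖ := by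
  have hy := yn_pos n
  have hy1 := yn_le_one n
  have hn0 : (0:ℝ) ≤ n := Nat.cast_nonneg n
  have hs : ((x:ℂ) + yn n * I) ∈ KK n :=
    ⟨by simp; linarith, by simp; linarith, by simp, by simp; linarith⟩
  have h1 := (FF_spec hs).2 n le_rfl
  have h2 := (sq_inv n).hR ((x:ℂ) + yn n * I) (by simp; linarith [cc_neg n])
    (by simp; linarith) (by simp; exact hy.le) (by simp [yn])
  have h3 : ((1:ℝ)/2)^n ≤ 1 := pow_le_one₀ (by norm_num) (by norm_num)
  have h4 := (abs_re_le_norm _).trans h1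
  rw [Complex.sub_re, abs_le] at h4
  have h5 := re_le_norm (FF ((x:ℂ) + yn n * I))
  change (n:ℝ) - 1 ≤ (fn n ((x:ℂ) + yn n * I)).re at h2
  linarith [h4.1]

theorem norm_ge {s : ℂ} (h1 : 0 ≤ s.re) (h2 : 0 ≤ s.im) :
    1 ≤ ‖s ^ 2 + I‖ ∧ ‖s‖ ≤ ‖s ^ 2 + I‖ := by
  have h3 : 0 ≤ s.re * s.im := mul_nonneg h1 h2
  have e1 : ‖s ^ 2 + I‖ ^ 2 = (s.re ^ 2 + s.im ^ 2) ^ 2 + 4 * (s.re * s.im) + 1 := by
    rw [Complex.sq_norm, Complex.normSq_apply]
    simp [pow_two]
    ring
  have e2 : ‖s‖ ^ 2 = s.re ^ 2 + s.im ^ 2 := by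
    rw [Complex.sq_norm, Complex.normSq_apply]; ring
  constructor
  · rw [← one_pow 2, ← Real.sqrt_sq (norm_nonneg (s ^ 2 + I))]
    apply Real.le_sqrt_of_sq_le
    rw [e1]; nlinarith [sq_nonneg (s.re ^ 2 + s.im ^ 2)]
  · apply le_of_sq_le_sq _ (norm_nonneg _)
    rw [e1, e2]
    nlinarith [sq_nonneg (s.re ^ 2 + s.im ^ 2 - 1), sq_nonneg s.re, sq_nonneg s.im]

theorem lip {s s' : ℂ} (h1 : 0 ≤ s.re) (h2 : 0 ≤ s.im) (h3 : 0 ≤ s'.re) (h4 : 0 ≤ s'.im) :
    ‖psi s - psi s'‖ ≤ 4 * ‖s - s'‖ := by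
  obtain ⟨a1, a2⟩ := norm_ge h1 h2
  obtain ⟨b1, b2⟩ := norm_ge h3 h4
  have n1 := sq_add_I_ne h1 h2
  have n2 := sq_add_I_ne h3 h4
  have e : psi s - psi s' = 2 * I * ((s - s') * (s + s')) / ((s ^ 2 + I) * (s' ^ 2 + I)) := by
    unfold psi
    field_simp
    ring
  rw [e, norm_div, norm_mul, norm_mul, norm_mul, norm_mul, Complex.norm_I, mul_one,
    Complex.norm_two, div_le_iff₀ (by positivity)]
  have h5 : ‖s + s'‖ ≤ 2 * (‖s ^ 2 + I‖ * ‖s' ^ 2 + I‖) := by
    refine (norm_add_le _ _).trans ?_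
    nlinarith
  nlinarith [norm_nonneg (s - s'), mul_le_mul_of_nonneg_left h5 (norm_nonneg (s - s'))]

theorem far {x : ℝ} (hx : 1 ≤ x) : ‖psi x - 1‖ ≤ 2 / x := by
  have n1 : ((x:ℂ)) ^ 2 + I ≠ 0 := sq_add_I_ne (s := (x:ℂ)) (by simp; linarith) (by simp)
  have e : psi x - 1 = -(2 * I) / ((x:ℂ) ^ 2 + I) := by
    unfold psi
    field_simp
    ring
  have h1 := (norm_ge (s := (x:ℂ)) (by simp; linarith) (by simp)).2
  rw [Complex.norm_real, Real.norm_eq_abs, abs_of_pos (by linarith)] at h1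
  rw [e, norm_div, norm_neg, norm_mul, Complex.norm_I, mul_one, Complex.norm_two]
  exact div_le_div_of_nonneg_left (by norm_num) (by linarith) h1

/-- points of the open lower half circle -/
theorem exists_x {θ : ℝ} (h1 : -Real.pi < θ) (h2 : θ < 0) :
    ∃ x : ℝ, 0 < x ∧ exp ((θ:ℂ) * I) = psi x := by
  have hpi := Real.pi_pos
  have h3 : Real.arctan (Real.tan (-θ/2)) = -θ/2 := Real.arctan_tan (by linarith) (by linarith)
  set v := Real.tan (-θ/2) with hv
  have hv0 : 0 < v := Real.tan_pos_of_pos_of_lt_pi_div_two (by linarith) (by linarith)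
  refine ⟨√(1/v), Real.sqrt_pos.2 (by positivity), ?_⟩
  rw [psi_exp (Real.sqrt_pos.2 (by positivity)), Real.sq_sqrt (by positivity)]
  have : 1 / (1/v) = v := by field_simp
  rw [this, h3]
  congr 2
  push_cast
  ring

/-- the parameter of the `n`-th arc -/
noncomputable def xx (n : ℕ) (t : ℝ) : ℝ := 1 / (n + 2 : ℝ) + t * ((n + 2 : ℝ) - 1 / (n + 2 : ℝ))

theorem xx_slope (n : ℕ) : 0 < (n + 2 : ℝ) - 1 / (n + 2 : ℝ) := by
  have hn : (0:ℝ) ≤ n := Nat.cast_nonneg n
  have h1 : 1 / (n + 2 : ℝ) ≤ 1 := by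
    rw [div_le_one (by positivity)]; linarith
  linarith

theorem xx_mem (n : ℕ) {t : ℝ} (ht : t ∈ Icc (0:ℝ) 1) :
    1 / (n + 2 : ℝ) ≤ xx n t ∧ xx n t ≤ n + 2 := by
  have h1 := xx_slope n
  unfold xx
  constructor
  · nlinarith [ht.1]
  · nlinarith [ht.2]

theorem xx_surj (n : ℕ) {x : ℝ} (h1 : 1 / (n + 2 : ℝ) ≤ x) (h2 : x ≤ n + 2) :
    ∃ t ∈ Icc (0:ℝ) 1, xx n t = x := by
  have h3 := xx_slope n
  refine ⟨(x - 1 / (n + 2 : ℝ)) / ((n + 2 : ℝ) - 1 / (n + 2 : ℝ)), ⟨?_, ?_⟩, ?_⟩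
  · exact div_nonneg (by linarith) h3.le
  · rw [div_le_one h3]; linarith
  · unfold xx
    rw [div_mul_cancel₀ _ h3.ne']
    ring

/-- the `n`-th point -/
noncomputable def PP (n : ℕ) (t : ℝ) : ℂ := ((xx n t : ℝ) : ℂ) + yn (n + 2) * I

theorem PP_mem (n : ℕ) {t : ℝ} (ht : t ∈ Icc (0:ℝ) 1) : PP n t ∈ Om := by
  have h1 := (xx_mem n ht).1
  have h2 : (0:ℝ) < 1 / (n + 2 : ℝ) := by positivity
  constructor
  · simp [PP]; linarith
  · simp [PP]; exact yn_pos _

theorem arc_tract : HasArcTract ff (-Real.pi) 0 := by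
  have hpi := Real.pi_pos
  refine ⟨fun n t => psi (PP n t), ?_, ?_, ?_⟩
  · intro n
    refine ⟨?_, ?_, ?_⟩
    · intro t ht
      have h2 := PP_mem n ht
      have h3 : ContinuousAt (PP n) t := by
        unfold PP xx
        fun_prop
      exact (ContinuousAt.comp (f := PP n)
        (psi_diff h2.1.le h2.2.le).continuousAt h3).continuousWithinAt
    · intro t ht t' ht' h
      have h1 : PP n t = PP n t' := by
        rw [← phi_psi (PP_mem n ht), ← phi_psi (PP_mem n ht')]
        exact congrArg _ h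
      have h2 := congrArg Complex.re h1
      simp only [PP, add_re, ofReal_re, mul_re, I_re, mul_zero, ofReal_im, I_im, mul_one,
        sub_self, add_zero] at h2
      unfold xx at h2
      have h3 := xx_slope n
      have h4 : (t - t') * ((n + 2 : ℝ) - 1 / (n + 2 : ℝ)) = 0 := by linarith
      rcases mul_eq_zero.1 h4 with h5 | h5
      · linarith
      · exact absurd h5 h3.ne'
    · rintro _ ⟨t, ht, rfl⟩
      exact psi_ball (PP_mem n ht)
  · -- Hausdorff convergence
    have hbound : ∀ n : ℕ, Metric.hausdorffDist ((fun t => psi (PP n t)) '' Icc 0 1)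
        (arc (-Real.pi) 0) ≤ 4 / (n + 2 : ℝ) + 4 * yn (n + 2) := by
      intro n
      have hy0 := yn_pos (n + 2)
      have hm : (0:ℝ) < n + 2 := by positivity
      have hd0 : (0:ℝ) < 4 / (n + 2 : ℝ) := by positivity
      have hclose : ∀ x : ℝ, 0 ≤ x → dist (psi ((x:ℂ) + yn (n + 2) * I)) (psi x) ≤
          4 * yn (n + 2) := by
        intro x hx
        rw [dist_eq_norm]
        refine (lip (by simp; exact hx) (by simp; exact hy0.le) (by simp; exact hx)
          (by simp)).trans ?_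
        rw [add_sub_cancel_left, norm_mul, Complex.norm_I, mul_one, Complex.norm_real,
          Real.norm_eq_abs, abs_of_pos hy0]
      have hlipr : ∀ x x' : ℝ, 0 ≤ x → 0 ≤ x' → dist (psi x) (psi x') ≤ 4 * |x - x'| := by
        intro x x' hx hx'
        rw [dist_eq_norm]
        refine (lip (by simp; exact hx) (by simp) (by simp; exact hx') (by simp)).trans ?_
        rw [← Complex.ofReal_sub, Complex.norm_real, Real.norm_eq_abs]
      have hpt : ∀ t ∈ Icc (0:ℝ) 1, dist (psi (PP n t)) (psi (xx n t : ℝ)) ≤ 4 * yn (n + 2) := by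
        intro t ht
        have h1 := (xx_mem n ht).1
        have h2 : (0:ℝ) < 1 / (n + 2 : ℝ) := by positivity
        exact hclose _ (by linarith)
      have hx0 : xx n 0 = 1 / (n + 2 : ℝ) := by unfold xx; ring
      have hx1 : xx n 1 = n + 2 := by unfold xx; ring
      have hfar : dist (psi ((n + 2 : ℝ) : ℝ)) 1 ≤ 2 / (n + 2 : ℝ) := by
        rw [dist_eq_norm]
        exact far (by linarith [Nat.cast_nonneg (α := ℝ) n])
      apply Metric.hausdorffDist_le_of_mem_dist (by positivity)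
      · rintro _ ⟨t, ht, rfl⟩
        have h1 := (xx_mem n ht).1
        have h2 : (0:ℝ) < 1 / (n + 2 : ℝ) := by positivity
        have hx : 0 < xx n t := by linarith
        have h5 := Real.arctan_pos.2 (show 0 < 1 / (xx n t) ^ 2 by positivity)
        have h6 := Real.arctan_lt_pi_div_two (1 / (xx n t) ^ 2)
        refine ⟨psi (xx n t : ℝ), ⟨-2 * Real.arctan (1 / (xx n t) ^ 2), ⟨by linarith, by linarith⟩,
          (psi_exp hx).symm⟩, (hpt t ht).trans (by linarith)⟩
      · rintro _ ⟨θ, hθ, rfl⟩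
        have hone : ∀ z : ℂ, dist z 1 ≤ 2 / (n + 2 : ℝ) → ∃ y ∈ (fun t => psi (PP n t)) '' Icc 0 1,
            dist z y ≤ 4 / (n + 2 : ℝ) + 4 * yn (n + 2) := by
          intro z hz
          refine ⟨_, ⟨1, ⟨zero_le_one, le_rfl⟩, rfl⟩, ?_⟩
          have h1 := hpt 1 ⟨zero_le_one, le_rfl⟩
          rw [hx1] at h1
          have h2 := dist_triangle z 1 (psi (PP n 1))
          have h3 := dist_triangle 1 (psi ((n + 2 : ℝ) : ℝ)) (psi (PP n 1))
          rw [dist_comm] at hfar h1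
          have h4 : 4 / (n + 2 : ℝ) = 2 / (n + 2 : ℝ) + 2 / (n + 2 : ℝ) := by ring
          linarith
        have hzero : ∀ x : ℝ, 0 ≤ x → x ≤ 1 / (n + 2 : ℝ) →
            ∃ y ∈ (fun t => psi (PP n t)) '' Icc 0 1,
            dist (psi x) y ≤ 4 / (n + 2 : ℝ) + 4 * yn (n + 2) := by
          intro x hx hx2
          refine ⟨_, ⟨0, ⟨le_rfl, zero_le_one⟩, rfl⟩, ?_⟩
          have h1 := hpt 0 ⟨le_rfl, zero_le_one⟩
          rw [hx0] at h1
          have h2 := dist_triangle (psi x) (psi ((1 / (n + 2 : ℝ) : ℝ) : ℂ)) (psi (PP n 0))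
          have h3 := hlipr x (1 / (n + 2 : ℝ)) hx (by positivity)
          have h4 : |x - 1 / (n + 2 : ℝ)| ≤ 1 / (n + 2 : ℝ) := by
            rw [abs_le]; constructor <;> linarith
          rw [dist_comm] at h1
          have h5 : 4 / (n + 2 : ℝ) = 4 * (1 / (n + 2 : ℝ)) := by ring
          linarith
        rcases eq_or_lt_of_le hθ.2 with h0 | h0
        · simp only [h0]
          refine hone _ ?_
          simp
          positivity
        rcases eq_or_lt_of_le hθ.1 with h1 | h1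
        · have e : exp ((θ:ℂ) * I) = psi ((0:ℝ) : ℂ) := by
            rw [← h1]
            unfold psi
            simp [Complex.exp_neg]
          simp only [e]
          exact hzero 0 le_rfl (by positivity)
        · obtain ⟨x, hx, he⟩ := exists_x h1 h0
          simp only [he]
          by_cases h2 : x ≤ 1 / (n + 2 : ℝ)
          · exact hzero x hx.le h2
          by_cases h3 : x ≤ n + 2
          · obtain ⟨t, ht, htx⟩ := xx_surj n (not_le.1 h2).le h3
            refine ⟨_, ⟨t, ht, rfl⟩, ?_⟩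
            have h4 := hpt t ht
            rw [htx, dist_comm] at h4
            linarith
          · refine hone _ ?_
            have h3' := not_le.1 h3
            rw [dist_eq_norm]
            refine (far (by linarith [Nat.cast_nonneg (α := ℝ) n])).trans ?_
            exact div_le_div_of_nonneg_left (by norm_num) hm h3'.le
    refine squeeze_zero (fun n => Metric.hausdorffDist_nonneg) hbound ?_
    have t1 : Tendsto (fun n : ℕ => 4 / (n + 2 : ℝ)) atTop (𝓝 0) := by
      apply Tendsto.div_atTop tendsto_const_nhds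
      exact tendsto_atTop_add_const_right _ _ tendsto_natCast_atTop_atTop
    have t2 : Tendsto (fun n : ℕ => 4 * yn (n + 2)) atTop (𝓝 0) := by
      have := (yn_tendsto.comp (tendsto_add_atTop_nat 2)).const_mul 4
      simpa using this
    simpa using t1.add t2
  · intro M
    have h1 : ∀ᶠ n : ℕ in atTop, M + 3 ≤ (n:ℝ) :=
      tendsto_natCast_atTop_atTop.eventually_ge_atTop _
    filter_upwards [h1] with n hn t ht
    rw [ff_psi (PP_mem n ht)]
    have h2 := xx_mem n ht
    have h3 : (0:ℝ) < 1 / (n + 2 : ℝ) := by positivity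
    have := level (n + 2) (x := xx n t) (by linarith) (by push_cast; linarith)
    push_cast at this
    unfold PP
    linarith

/-- **There is a holomorphic function `f` on the unit disc with nowhere vanishing derivative that
has the asymptotic value `∞` at every point of the open lower half circle and a finite asymptotic
value at every point of the open upper half circle (so an asymptotic value at every point of the
unit circle with at most the two exceptions `±1`), and that has an arc tract whose end is the whole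
closed lower half circle.** -/
theorem result : ∃ f : ℂ → ℂ,
    DifferentiableOn ℂ f (Metric.ball (0 : ℂ) 1) ∧
    (¬ ∃ c : ℂ, ∀ z ∈ Metric.ball (0 : ℂ) 1, f z = c) ∧
    (∀ z ∈ Metric.ball (0 : ℂ) 1, deriv f z ≠ 0) ∧
    (∀ ζ ∈ Metric.sphere (0 : ℂ) 1, ζ.im < 0 → HasInfiniteAsymptoticValue f ζ) ∧
    (∀ ζ ∈ Metric.sphere (0 : ℂ) 1, 0 < ζ.im → HasFiniteAsymptoticValue f ζ) ∧
    HasArcTract f (-Real.pi) 0 := by
  refine ⟨ff, ?_, ?_, fun z hz => ff_deriv hz, ?_, ?_, arc_tract⟩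
  · intro z hz
    exact (ff_hasDeriv hz).differentiableAt.differentiableWithinAt
  · rintro ⟨c, hc⟩
    have h0 : (0:ℂ) ∈ Metric.ball (0:ℂ) 1 := Metric.mem_ball_self one_pos
    apply ff_deriv h0
    have h1 : ff =ᶠ[𝓝 0] fun _ => c := by
      filter_upwards [Metric.isOpen_ball.mem_nhds h0] with w hw using hc w hw
    rw [h1.deriv_eq, deriv_const]
  · intro ζ hζ him
    obtain ⟨u, hu, h1, -⟩ := circle_point hζ him.ne
    have hu0 := h1 him
    obtain ⟨γ, g1, g2, g3, g4⟩ := asym_low (x0 := √u) (Real.sqrt_pos.2 hu0)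
    refine ⟨γ, ⟨g1, g2, ?_⟩, g4⟩
    rwa [psi_real (Real.sq_sqrt hu0.le), ← hu] at g3
  · intro ζ hζ him
    obtain ⟨u, hu, -, h2⟩ := circle_point hζ him.ne'
    have hu0 := h2 him
    obtain ⟨γ, g1, g2, g3, g4⟩ := asym_up (y0 := √(-u)) (Real.sqrt_pos.2 (by linarith))
    refine ⟨γ, ⟨g1, g2, ?_⟩, g4⟩
    have e : psi ((√(-u) : ℝ) * I) = ζ := by
      have e1 : (((√(-u) : ℝ):ℂ) * I)^2 = (u:ℂ) := by
        rw [mul_pow, Complex.I_sq, ← Complex.ofReal_pow, Real.sq_sqrt (by linarith)]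
        push_cast
        ring
      rw [psi, e1, ← hu]
    rwa [e] at g3

end Pool.Agent.Results.MP_6f1701_an.HalfCircle
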